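import Mathlib
import Pool.Agent.Helper96.LB3.Stmts

/-! Row CLA: the area of a centrally symmetric polygon inside the square which touches the
vertical sides is twice the integral of its upper boundary. -/

open MeasureTheory Module Set
open scoped ENNReal

namespace Pool.Agent.Helper66.LB3

open Pool.Agent.Helper96.LB3

theorem topf_le {E : Type} [Fintype E] {g1 g2 A : E → ℝ} {x y : ℝ} :
    y ≤ topf g1 g2 A x ↔ y ≤ 1 ∧ ∀ e, 0 < g2 e → g1 e * x + g2 e * y ≤ A e := by
  unfold topf
  rw [le_ciInf_iff (Set.finite_range _).bddBelow]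
  constructor
  · intro h
    refine ⟨h none, fun e he => ?_⟩
    have h1 := h (some e)
    simp only [he, if_true] at h1
    rw [le_div_iff₀ he] at h1
    linarith
  · rintro ⟨h1, h2⟩ e
    rcases e with _ | e
    · exact h1
    · by_cases he : 0 < g2 e
      · simp only [he, if_true]
        rw [le_div_iff₀ he]
        have := h2 e he
        linarith
      · simp only [he, if_false]
        exact h1

theorem topf_cont {E : Type} [Fintype E] (g1 g2 A : E → ℝ) :
    Continuous (topf g1 g2 A) := by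
  have h : topf g1 g2 A = fun x => Finset.univ.inf' Finset.univ_nonempty
      (fun e : Option E => (match e with
        | none => 1
        | some e => if 0 < g2 e then (A e - g1 e * x) / g2 e else 1)) := by
    funext x
    unfold topf
    rw [Finset.inf'_univ_eq_ciInf]
    rfl
  rw [h]
  refine Continuous.finset_inf'_apply _ ?_
  rintro (_ | e) -
  · exact continuous_const
  · by_cases he : 0 < g2 e
    · simp only [he, if_true]
      fun_prop
    · simp only [he, if_false]
      exact continuous_const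

/-- The slice over `x`, when the constraints without `y` hold at `x`. -/
theorem slice_eq {E : Type} [Fintype E] {g1 g2 A : E → ℝ} (hs : Sym g1 g2 A) {x : ℝ}
    (hx : |x| ≤ 1) (h0 : ∀ e, g2 e = 0 → g1 e * x ≤ A e) :
    Prod.mk x ⁻¹' (Q g1 g2 A) = Icc (-topf g1 g2 A (-x)) (topf g1 g2 A x) := by
  ext y
  simp only [mem_preimage, Q, mem_ofPred_eq, mem_Icc, neg_le (a := topf g1 g2 A (-x)), topf_le]
  constructor
  · rintro ⟨-, hy, h⟩
    refine ⟨⟨by linarith [(abs_le.1 hy).1], fun e _ => ?_⟩, (abs_le.1 hy).2, fun e _ => h e⟩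
    obtain ⟨e', h1, h2, h3⟩ := hs e
    have := h e'
    rw [h1, h2, h3] at this
    linarith
  · rintro ⟨⟨hy1, h1⟩, hy2, h2⟩
    refine ⟨hx, abs_le.2 ⟨by linarith, hy2⟩, fun e => ?_⟩
    rcases lt_trichotomy (g2 e) 0 with he | he | he
    · obtain ⟨e', h3, h4, h5⟩ := hs e
      have h6 : 0 < g2 e' := by rw [h4]; linarith
      have := h1 e' h6
      rw [h3, h4, h5] at this
      linarith
    · have := h0 e he
      rw [he]
      linarith
    · exact h2 e he

theorem Q_meas {E : Type} [Fintype E] (g1 g2 A : E → ℝ) : MeasurableSet (Q g1 g2 A) := by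
  have : IsClosed (Q g1 g2 A) := by
    have h : Q g1 g2 A = {p : ℝ × ℝ | |p.1| ≤ 1} ∩ ({p : ℝ × ℝ | |p.2| ≤ 1} ∩
        ⋂ e, {p : ℝ × ℝ | g1 e * p.1 + g2 e * p.2 ≤ A e}) := by
      ext p
      simp [Q]
    rw [h]
    refine (isClosed_le (by fun_prop) (by fun_prop)).inter
      ((isClosed_le (by fun_prop) (by fun_prop)).inter (isClosed_iInter fun e => ?_))
    exact isClosed_le (by fun_prop) (by fun_prop)
  exact this.measurableSet

theorem int_topf_neg {E : Type} [Fintype E] (g1 g2 A : E → ℝ) :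
    ∫ x in (-1 : ℝ)..1, (topf g1 g2 A x + topf g1 g2 A (-x)) =
      2 * ∫ x in (-1 : ℝ)..1, topf g1 g2 A x := by
  have hc := topf_cont g1 g2 A
  have hd : Continuous (fun x => topf g1 g2 A (-x)) := hc.comp continuous_neg
  rw [intervalIntegral.integral_add (hc.intervalIntegrable _ _) (hd.intervalIntegrable _ _)]
  have : ∫ x in (-1 : ℝ)..1, topf g1 g2 A (-x) = ∫ x in (-1 : ℝ)..1, topf g1 g2 A x := by
    rw [intervalIntegral.integral_comp_neg (fun x => topf g1 g2 A x)]
    simp
  rw [this]
  ring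

theorem st_CLA : ST_CLA := by
  intro E _ g1 g2 A hs hp
  obtain ⟨p, ⟨-, hp2, hp3⟩, hp1⟩ := hp
  rw [hp1] at hp3
  have habs : ∀ e, |g1 e + g2 e * p.2| ≤ A e := by
    intro e
    obtain ⟨e', h1, h2, h3⟩ := hs e
    have h4 := hp3 e
    have h5 := hp3 e'
    rw [h1, h2, h3] at h5
    exact abs_le.2 ⟨by linarith, by linarith⟩
  have hmem : ∀ x : ℝ, |x| ≤ 1 → ∀ e, g1 e * x + g2 e * (x * p.2) ≤ A e := by
    intro x hx e
    have h1 : g1 e * x + g2 e * (x * p.2) = x * (g1 e + g2 e * p.2) := by ring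
    rw [h1]
    calc x * (g1 e + g2 e * p.2) ≤ |x * (g1 e + g2 e * p.2)| := le_abs_self _
      _ = |x| * |g1 e + g2 e * p.2| := abs_mul _ _
      _ ≤ 1 * A e := mul_le_mul hx (habs e) (abs_nonneg _) zero_le_one
      _ = A e := one_mul _
  have h0 : ∀ x : ℝ, |x| ≤ 1 → ∀ e, g2 e = 0 → g1 e * x ≤ A e := by
    intro x hx e he
    have := hmem x hx e
    rw [he] at this
    linarith
  have hne : ∀ x : ℝ, |x| ≤ 1 → 0 ≤ topf g1 g2 A x + topf g1 g2 A (-x) := by
    intro x hx
    have hm : (x * p.2) ∈ Prod.mk x ⁻¹' (Q g1 g2 A) := by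
      refine ⟨hx, ?_, hmem x hx⟩
      show |x * p.2| ≤ 1
      rw [abs_mul]
      calc |x| * |p.2| ≤ 1 * 1 := mul_le_mul hx hp2 (abs_nonneg _) zero_le_one
        _ = 1 := one_mul _
    rw [slice_eq hs hx (h0 x hx)] at hm
    have h1 := hm.1
    have h2 := hm.2
    linarith
  have hvol : volume (Q g1 g2 A) =
      ENNReal.ofReal (2 * ∫ x in (-1 : ℝ)..1, topf g1 g2 A x) := by
    rw [Measure.volume_eq_prod, Measure.prod_apply (Q_meas g1 g2 A)]
    have h1 : ∀ x : ℝ, volume (Prod.mk x ⁻¹' (Q g1 g2 A)) =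
        (Icc (-1 : ℝ) 1).indicator
          (fun x => ENNReal.ofReal (topf g1 g2 A x + topf g1 g2 A (-x))) x := by
      intro x
      by_cases hx : x ∈ Icc (-1 : ℝ) 1
      · have hx' : |x| ≤ 1 := abs_le.2 hx
        rw [indicator_of_mem hx, slice_eq hs hx' (h0 x hx'), Real.volume_Icc]
        congr 1
        ring
      · rw [indicator_of_notMem hx]
        have : Prod.mk x ⁻¹' (Q g1 g2 A) = ∅ := by
          ext y
          simp only [mem_preimage, mem_empty_iff_false, iff_false]
          intro h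
          exact hx (abs_le.1 h.1)
        rw [this, measure_empty]
    rw [lintegral_congr h1, lintegral_indicator measurableSet_Icc]
    have hc := topf_cont g1 g2 A
    have hc2 : Continuous (fun x => topf g1 g2 A x + topf g1 g2 A (-x)) :=
      hc.add (hc.comp continuous_neg)
    rw [← ofReal_integral_eq_lintegral_ofReal (hc2.continuousOn.integrableOn_compact isCompact_Icc)
      ((ae_restrict_iff' measurableSet_Icc).2 (Filter.Eventually.of_forall
        (fun x hx => hne x (abs_le.2 hx))))]
    rw [integral_Icc_eq_integral_Ioc, ← intervalIntegral.integral_of_le (by norm_num : (-1 : ℝ) ≤ 1),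
      int_topf_neg]
  have hnn : 0 ≤ 2 * ∫ x in (-1 : ℝ)..1, topf g1 g2 A x := by
    rw [← int_topf_neg]
    refine intervalIntegral.integral_nonneg (by norm_num) (fun x hx => hne x (abs_le.2 hx))
  rw [Measure.real, hvol, ENNReal.toReal_ofReal hnn]

end Pool.Agent.Helper66.LB3
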